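import Pool.Agent.Results.MP_52f683_gt.Hyperconnected
import Pool.Agent.Helper311_thin.SeqCpt

/-!
# Thin sequentially compact spaces are finite

No separation axiom is assumed.
-/

set_option autoImplicit false

open Set Topology Function Filter

universe u

namespace Pool.Agent.Results.MP_52f683_gt.SeqCompact

/-- Every thin sequentially compact topological space is finite. -/
theorem result (S : Type u) [TopologicalSpace S] [SeqCompactSpace S]
    (hS : ∀ A B : Set S, Nonempty (A ≃ₜ B) → ∃ h : S ≃ₜ S, ⇑h '' A = B) : Finite S := by
  by_contra hfin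
  rw [not_finite_iff_infinite] at hfin
  obtain ⟨_, hT, hI, hT1, _⟩ := Hyperconnected.result S hS
  have hsc : SeqCompactSpace (SeparationQuotient S) := by
    refine ⟨fun x _ => ?_⟩
    choose y hy using fun n => SeparationQuotient.surjective_mk (x n)
    obtain ⟨a, φ, hφ, hlim⟩ := SeqCompactSpace.tendsto_subseq y
    refine ⟨SeparationQuotient.mk a, mem_univ _, φ, hφ, ?_⟩
    have h1 := (SeparationQuotient.continuous_mk.tendsto a).comp hlim
    refine h1.congr fun n => ?_
    exact hy (φ n)
  exact Pool.Agent.Helper311_thin.no_seqCompact hT (Hyperconnected.homog hT)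

end Pool.Agent.Results.MP_52f683_gt.SeqCompact
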