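import Pool.Agent.Results.MP_52f683_gt.Hyperconnected
import Pool.Agent.Helper311_thin.Seq

/-!
# Thin sequential spaces are finite

No separation axiom is assumed. This extends the starting file `FrechetUrysohn`.
-/

set_option autoImplicit false

open Set Topology Function Filter

universe u

namespace Pool.Agent.Results.MP_52f683_gt.Sequential

/-- Every thin sequential topological space is finite. -/
theorem result (S : Type u) [TopologicalSpace S] [SequentialSpace S]
    (hS : ∀ A B : Set S, Nonempty (A ≃ₜ B) → ∃ h : S ≃ₜ S, ⇑h '' A = B) : Finite S := by
  by_contra hfin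
  rw [not_finite_iff_infinite] at hfin
  obtain ⟨_, hT, hI, hT1, _⟩ := Hyperconnected.result S hS
  have hne : Nonempty (SeparationQuotient S) := hI.nonempty
  have hfu : SequentialSpace (SeparationQuotient S) :=
    SeparationQuotient.isQuotientMap_mk.sequentialSpace
  exact Pool.Agent.Helper311_thin.no_seq hT (Hyperconnected.homog hT)
    (Hyperconnected.not_open_singleton hT)

end Pool.Agent.Results.MP_52f683_gt.Sequential
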